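import Pool.Agent.Lib.GBC.TDef
import Pool.Agent.Lib.GBC.Q.Base
import Pool.Agent.Lib.HYP.L.Tau

/-!
Module T.Wt of GBC. The filtration `BL z = t ^ z B_L` of `L = K[θ]` (compare `HYP/B/Deg.lean`, the case
`K = k(t)`, `WLE m hF l N` is `l ∈ BL N`).

PROOFS. The coefficients of `l` are those of `AdjoinRoot.modByMonicHom hF l`, a linear map;
`AdjoinRoot.modByMonicHom_mk : modByMonicHom hF (mk F P) = P %ₘ F`, and
`AdjoinRoot.mk_leftInverse hF` gives `mk F (modByMonicHom hF l) = l`.
`BL_mono`, `BL_smul`, `BL_smul_iff`, `BL_exists`: `G.M_mono`, `G.mul_mem_M`, `G.zpow_mul_mem_M`,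
`G.exists_mem_M` (finitely many coefficients).
`lead_mem`: for `Fam₀ D m f` and all `j`: `f.coeff j ∈ M (2 m (n - j))` for `j ≤ n`, `n = 2 g + 1`:
`t ^ e φ_j ∈ M e` and the difference is in `M (e - 1)`, `e = 2 m (n - j)`.
`BL_mk`: strong induction on `P.natDegree`: if `P.natDegree < n` then `P %ₘ F = P`. Otherwise let
`d = P.natDegree`, `P' = P - C (P.coeff d) * X ^ (d - n) * F`; `P' %ₘ F = P %ₘ F`
(`Polynomial.modByMonic_eq_of_dvd_sub`), `P'` has smaller degree (or is `0`), and its coefficients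
satisfy the same conditions by `lead_mem` (`(C a * X ^ e * F).coeff i = a * F.coeff (i - e)` if `e ≤ i`).
`BL_mul`: `l l' = mk (P * P')` with `P, P'` the representatives; `(P * P').coeff i` is the sum of the
`P.coeff a * P'.coeff b`, `a + b = i`. `BL_root`: `root F = mk F X`. `BL_tau`: by definition
`tau hF l = (modByMonicHom hF l).coeff (F.natDegree - 1)`, `F.natDegree - 1 = 2 g`.
-/

set_option autoImplicit false

open Polynomial

namespace Pool.Agent.GBC

open Pool.Agent.BSDP Pool.Agent.BSDFF Pool.Agent.HYP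

variable {k K : Type} [Field k] [Field K] [Algebra k K] {G : Geo k K} {m : ℕ}

theorem BL_mono {F : K[X]} (hF : F.Monic) {z z' : ℤ} (h : z ≤ z') :
    BL G m hF z ≤ BL G m hF z' := by
  intro l hl i
  exact G.M_mono (by linarith) (hl i)

private theorem wt_exists (G : Geo k K) (m : ℕ) (P : K[X]) :
    ∃ z : ℕ, ∀ i : ℕ, P.coeff i ∈ G.M ((z : ℤ) - 2 * m * i) := by
  induction P using Polynomial.induction_on' with
  | add p q hp hq =>
    obtain ⟨N, hN⟩ := hp
    obtain ⟨N', hN'⟩ := hq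
    refine ⟨max N N', fun i => ?_⟩
    rw [coeff_add]
    have h1 : (N : ℤ) ≤ (max N N' : ℕ) := by exact_mod_cast le_max_left N N'
    have h2 : (N' : ℤ) ≤ (max N N' : ℕ) := by exact_mod_cast le_max_right N N'
    exact (G.M _).add_mem (G.M_mono (by linarith) (hN i)) (G.M_mono (by linarith) (hN' i))
  | monomial n a =>
    obtain ⟨N, hN⟩ := G.exists_mem_M a
    refine ⟨N + 2 * m * n, fun i => ?_⟩
    rw [coeff_monomial]
    split_ifs with h
    · subst h
      exact G.M_mono (by push_cast; linarith) hN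
    · exact (G.M _).zero_mem

theorem BL_exists {F : K[X]} (hF : F.Monic) (l : AdjoinRoot F) : ∃ z : ℕ, l ∈ BL G m hF z :=
  wt_exists G m _

theorem BL_smul {F : K[X]} {hF : F.Monic} {x : K} {l : AdjoinRoot F} {y z : ℤ} (hx : x ∈ G.M y)
    (hl : l ∈ BL G m hF z) : x • l ∈ BL G m hF (y + z) := by
  intro i
  rw [map_smul, coeff_smul, smul_eq_mul]
  exact G.M_mono (by linarith) (G.mul_mem_M hx (hl i))

theorem BL_smul_iff {F : K[X]} {hF : F.Monic} {l : AdjoinRoot F} {y z : ℤ} :
    G.t ^ y • l ∈ BL G m hF (z + y) ↔ l ∈ BL G m hF z := by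
  refine forall_congr' fun i => ?_
  rw [map_smul, coeff_smul, smul_eq_mul]
  have h : z + y - 2 * m * i = (z - 2 * m * i) + y := by ring
  rw [h]
  exact G.zpow_mul_mem_M

variable {g : ℕ} {D : Data G g} {f : G.A[X]}

theorem Fam₀.lead_mem (hf : Fam₀ D m f) (j : ℕ) (hj : j ≤ 2 * g + 1) :
    (f.coeff j : K) ∈ G.M (2 * m * (2 * g + 1 - j : ℕ)) := by
  have h1 := hf.lead j hj
  have h2 : G.t ^ (2 * m * (2 * g + 1 - j)) * (D.φ.coeff j : K) ∈
      G.M (2 * m * (2 * g + 1 - j : ℕ)) := by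
    have h3 : G.t ^ (2 * m * (2 * g + 1 - j)) ∈ G.M ((2 * m * (2 * g + 1 - j) : ℕ) : ℤ) := by
      rw [← zpow_natCast]
      exact G.zpow_mem_M _
    have h4 : (D.φ.coeff j : K) ∈ G.M 0 := (G.mem_M_zero _).2 (D.φ.coeff j).2
    refine G.M_mono (le_of_eq ?_) (G.mul_mem_M h3 h4)
    push_cast
    ring
  have h5 := (G.M _).add_mem (G.M_mono (by linarith) h1) h2
  rwa [sub_add_cancel] at h5

private theorem wt_coeff (hf : Fam₀ D m f) (j : ℕ) :
    (G.fK f).coeff j ∈ G.M (2 * m * (2 * g + 1) - 2 * m * j) := by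
  rw [coeff_map]
  rcases Nat.lt_or_ge (2 * g + 1) j with h | h
  · rw [coeff_eq_zero_of_natDegree_lt (by rw [hf.deg]; exact h), map_zero]
    exact (G.M _).zero_mem
  · refine G.M_mono (le_of_eq ?_) (hf.lead_mem j h)
    push_cast [Nat.cast_sub h]
    ring

private theorem wt_deg (hf : Fam₀ D m f) : (G.fK f).natDegree = 2 * g + 1 := by
  rw [hf.monic.natDegree_map, hf.deg]

private theorem wt_mod (hf : Fam₀ D m f) (hm : (G.fK f).Monic) {N : ℤ} :
    ∀ (d : ℕ) (P : K[X]), P.natDegree ≤ d →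
      (∀ i : ℕ, P.coeff i ∈ G.M (N - 2 * m * i)) →
      ∀ i : ℕ, (P %ₘ G.fK f).coeff i ∈ G.M (N - 2 * m * i) := by
  intro d
  induction d with
  | zero =>
    intro P hP h
    have h1 : P %ₘ G.fK f = P := by
      refine (modByMonic_eq_self_iff hm).2 ?_
      rw [degree_eq_natDegree hm.ne_zero, wt_deg hf]
      refine lt_of_le_of_lt (degree_le_of_natDegree_le hP) ?_
      exact_mod_cast Nat.succ_pos _
    rw [h1]
    exact h
  | succ d ih =>
    intro P hP h
    by_cases hlt : P.degree < (G.fK f).degree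
    · rw [(modByMonic_eq_self_iff hm).2 hlt]
      exact h
    · have hP0 : P ≠ 0 := by
        rintro rfl
        rw [degree_zero] at hlt
        exact hlt (bot_lt_iff_ne_bot.2 (by rw [Ne, degree_eq_bot]; exact hm.ne_zero))
      have hle : (G.fK f).degree ≤ P.degree := not_lt.1 hlt
      have hlen : (G.fK f).natDegree ≤ P.natDegree := natDegree_le_natDegree hle
      have hw := Polynomial.div_wf_lemma ⟨hle, hP0⟩ hm
      set e := P.natDegree - (G.fK f).natDegree with he
      set P' := P - G.fK f * (C P.leadingCoeff * X ^ e) with hP'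
      have h1 : P %ₘ G.fK f = P' %ₘ G.fK f := by
        refine modByMonic_eq_of_dvd_sub hm ?_
        rw [hP', sub_sub_cancel]
        exact dvd_mul_right _ _
      rw [h1]
      refine ih P' ?_ ?_
      · by_cases h0 : P' = 0
        · rw [h0, natDegree_zero]
          exact Nat.zero_le _
        · have := natDegree_lt_natDegree h0 hw
          omega
      · intro i
        rw [hP', coeff_sub]
        refine (G.M _).sub_mem (h i) ?_
        rw [← mul_assoc, coeff_mul_X_pow', coeff_mul_C]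
        split_ifs with hi
        · have h2 := G.mul_mem_M (wt_coeff hf (i - e)) (h P.natDegree)
          refine G.M_mono (le_of_eq ?_) h2
          rw [wt_deg hf] at he hlen
          have h3 : (e : ℤ) = (P.natDegree : ℤ) - (2 * g + 1) := by
            rw [he, Nat.cast_sub hlen]
            push_cast
            ring
          rw [Nat.cast_sub hi, h3]
          ring
        · exact (G.M _).zero_mem

theorem BL_mk (hf : Fam₀ D m f) (hm : (G.fK f).Monic) (P : K[X]) {z : ℤ}
    (h : ∀ i : ℕ, P.coeff i ∈ G.M (z - 2 * m * i)) : AdjoinRoot.mk (G.fK f) P ∈ BL G m hm z := by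
  intro i
  rw [AdjoinRoot.modByMonicHom_mk]
  exact wt_mod hf hm _ P le_rfl h i

theorem BL_mul (hf : Fam₀ D m f) {hm : (G.fK f).Monic} {l l' : AdjoinRoot (G.fK f)} {z z' : ℤ}
    (h : l ∈ BL G m hm z) (h' : l' ∈ BL G m hm z') : l * l' ∈ BL G m hm (z + z') := by
  have h1 : l * l' = AdjoinRoot.mk (G.fK f)
      (AdjoinRoot.modByMonicHom hm l * AdjoinRoot.modByMonicHom hm l') := by
    rw [map_mul, AdjoinRoot.mk_leftInverse hm l, AdjoinRoot.mk_leftInverse hm l']
  rw [h1]
  refine BL_mk hf hm _ fun i => ?_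
  rw [coeff_mul]
  refine (G.M _).sum_mem fun x hx => ?_
  rw [Finset.HasAntidiagonal.mem_antidiagonal] at hx
  refine G.M_mono (le_of_eq ?_) (G.mul_mem_M (h x.1) (h' x.2))
  rw [← hx]
  push_cast
  ring

theorem BL_one (hf : Fam₀ D m f) (hm : (G.fK f).Monic) :
    (1 : AdjoinRoot (G.fK f)) ∈ BL G m hm 0 := by
  rw [← map_one (AdjoinRoot.mk (G.fK f))]
  refine BL_mk hf hm _ fun i => ?_
  rw [coeff_one]
  split_ifs with h
  · rw [h]
    exact G.one_mem_M (by simp)
  · exact (G.M _).zero_mem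

theorem BL_root (hf : Fam₀ D m f) (hm : (G.fK f).Monic) :
    AdjoinRoot.root (G.fK f) ∈ BL G m hm (2 * m) := by
  rw [← AdjoinRoot.mk_X]
  refine BL_mk hf hm _ fun i => ?_
  rw [coeff_X]
  split_ifs with h
  · rw [← h]
    exact G.one_mem_M (by simp)
  · exact (G.M _).zero_mem

theorem BL_tau (hf : Fam₀ D m f) {hm : (G.fK f).Monic} {l : AdjoinRoot (G.fK f)} {z : ℤ}
    (h : l ∈ BL G m hm z) : tau hm l ∈ G.M (z - 4 * m * g) := by
  have h1 : Pool.Agent.HYP.tau hm l =
      (AdjoinRoot.modByMonicHom hm l).coeff ((G.fK f).natDegree - 1) := rfl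
  rw [h1, wt_deg hf, Nat.add_sub_cancel]
  refine G.M_mono (le_of_eq ?_) (h (2 * g))
  push_cast
  ring

end Pool.Agent.GBC
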