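import Pool.Agent.Lib.GBC.T.Scale
import Pool.Agent.Lib.HYP.G.Tw
import Pool.Agent.Lib.HYP.L.Norm

/-!
Module T.Kap of GBC. Every nonzero element of `L` is an element of `K*` times a unit of `B_L`; `L` is a
field; normalization of a class of square norm.

PROOFS. `f'` from `exists_scaled`, `S' = AdjoinRoot f'`, `L' = AdjoinRoot (f' over K)`, `dn : L' ≃ L`
(`dn_bijective`). `unit_or`: an element `x ∈ S'` which is nonzero modulo every maximal ideal `I` of `B`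
(i.e. `bc (mk I) f' x ≠ 0` in `AdjoinRoot (f'.map (mk I)) = AdjoinRoot (φ.map (mk I))`, a field by
`D.irr` (`B ⧸ I` is a field, `AdjoinRoot` of an irreducible polynomial)) is a unit: its norm
`N ∈ B` reduces modulo `I` to the norm of the unit `bc (mk I) f' x` (`norm_bc`), which is a unit
(`isUnit_iff_norm`); so `N` is in no maximal ideal, so it is a unit, so `x` is a unit
(`isUnit_iff_norm`).
`exists_kap`: let `0 ≠ l ∈ L`, `l = dn l'`, `l' = ∑_{i < n} y_i θ' ^ i`, `y_i ∈ K`. `B` is a principal ideal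
domain with fraction field `K` (`G.exh`); the `B`-module generated by the `y_i` in `K` is `κ B`, `κ ≠ 0`
(a finitely generated fractional ideal; clear denominators with `t⁻¹ ^ N`). `l' = κ x`,
`x = ∑ (y_i / κ) θ' ^ i` with `y_i / κ ∈ B` generating the unit ideal, so `x` is nonzero modulo every
maximal ideal (coordinates: `1, θ', …` is a basis of `AdjoinRoot` of the monic polynomial, `bc` maps
coordinates to coordinates). So `x` is a unit.
`isUnit_of_ne_zero`: from `exists_kap`. `irreducible_fK`: `L = AdjoinRoot (fK f)` is an integral domain (all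
nonzero elements are units, `1 ≠ 0` as the degree is positive), so `fK f` is prime
(`AdjoinRoot` is the quotient by `(fK f)`: `Ideal.Quotient.isDomain_iff_prime`,
`Ideal.span_singleton_prime`).
`exists_norm`: `c` with `norm c = a ^ 2`, `a ≠ 0`; `c = κ e`, `norm c = κ ^ n norm e` (`norm_const`), and
`u = norm e` is a unit of `B`: `e = dn (bc x)`, `norm e = norm_B x` (`norm_dn`, `norm_bc`). So
`κ = u⁻¹ (a / κ ^ g) ^ 2` and `c = (a / κ ^ g) ^ 2 (u⁻¹ e)`, `u⁻¹ ∈ B`.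
-/

set_option autoImplicit false

open Polynomial

namespace Pool.Agent.GBC

open Pool.Agent.BSDP Pool.Agent.BSDFF Pool.Agent.HYP

private theorem T_Kap_field {F : Type} [Field F] {p : F[X]} (hp : Irreducible p)
    (x : AdjoinRoot p) (hx : x ≠ 0) : IsUnit x := by
  have : Fact (Irreducible p) := ⟨hp⟩
  exact IsUnit.mk0 x hx

private theorem T_Kap_quot {B : Type} [CommRing B] (I : Ideal B) [I.IsMaximal] {p : (B ⧸ I)[X]}
    (hp : Irreducible p) (x : AdjoinRoot p) (hx : x ≠ 0) : IsUnit x := by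
  let _ := Ideal.Quotient.field I
  exact T_Kap_field hp x hx

private theorem T_Kap_unit {B : Type} [CommRing B] {f' : B[X]} (hf' : f'.Monic)
    (hirr : ∀ I : Ideal B, I.IsMaximal → Irreducible (f'.map (Ideal.Quotient.mk I)))
    (x : AdjoinRoot f')
    (hx : ∀ I : Ideal B, I.IsMaximal → bc (Ideal.Quotient.mk I) f' x ≠ 0) : IsUnit x := by
  rw [isUnit_iff_norm hf']
  by_contra hn
  obtain ⟨I, hI, hmem⟩ := exists_max_ideal_of_mem_nonunits hn
  have h1 := T_Kap_quot I (hirr I hI) _ (hx I hI)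
  rw [isUnit_iff_norm (hf'.map _), norm_bc hf', Ideal.Quotient.eq_zero_iff_mem.2 hmem] at h1
  exact not_isUnit_zero h1

private theorem T_Kap_prim {B : Type} [CommRing B] [IsDomain B] [IsPrincipalIdealRing B]
    (P : B[X]) (hP : P ≠ 0) : ∃ (d : B) (P₀ : B[X]), d ≠ 0 ∧ P = C d * P₀ ∧
      ∀ I : Ideal B, I.IsMaximal → P₀.map (Ideal.Quotient.mk I) ≠ 0 := by
  obtain ⟨d, hd⟩ := (IsPrincipalIdealRing.principal (Ideal.span (Set.range P.coeff))).principal
  have hd' : Ideal.span (Set.range P.coeff) = Ideal.span {d} := hd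
  have h1 : C d ∣ P := by
    rw [C_dvd_iff_dvd_coeff]
    intro i
    rw [← Ideal.mem_span_singleton, ← hd']
    exact Ideal.subset_span ⟨i, rfl⟩
  obtain ⟨P₀, hP₀⟩ := h1
  have hd0 : d ≠ 0 := by
    rintro rfl
    rw [C_0, zero_mul] at hP₀
    exact hP hP₀
  refine ⟨d, P₀, hd0, hP₀, fun I hI h0 => ?_⟩
  have h2 : Ideal.span (Set.range P.coeff) ≤ Ideal.span {d} * I := by
    rw [Ideal.span_le]
    rintro _ ⟨i, rfl⟩
    have h3 : P.coeff i = d * P₀.coeff i := by rw [hP₀, coeff_C_mul]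
    rw [h3]
    refine Ideal.mul_mem_mul (Ideal.mem_span_singleton_self d) ?_
    rw [← Ideal.Quotient.eq_zero_iff_mem, ← coeff_map, h0, coeff_zero]
  have h4 : d ∈ Ideal.span {d} * I := h2 (by rw [hd']; exact Ideal.mem_span_singleton_self d)
  obtain ⟨z, hz, hdz⟩ := Ideal.mem_span_singleton_mul.1 h4
  have h5 : z = 1 := mul_left_cancel₀ hd0 (by rw [hdz, mul_one])
  exact hI.ne_top ((Ideal.eq_top_iff_one I).2 (h5 ▸ hz))

private theorem T_Kap_clear {B : Type} [CommRing B] {K : Type} [Field K] (ι : B →+* K)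
    (τ : B) (hexh : ∀ x : K, ∃ (n : ℕ) (b : B), ι τ ^ n * x = ι b) (P : K[X]) :
    ∃ (N : ℕ) (P₁ : B[X]), P₁.map ι = C (ι τ ^ N) * P := by
  have h1 : ∀ s : Finset ℕ, ∃ N : ℕ, ∀ i ∈ s, ∃ b : B, ι τ ^ N * P.coeff i = ι b := by
    intro s
    induction s using Finset.induction_on with
    | empty => exact ⟨0, fun i hi => absurd hi (Finset.notMem_empty i)⟩
    | insert a s ha ih =>
      obtain ⟨N, hN⟩ := ih
      obtain ⟨n, b, hb⟩ := hexh (P.coeff a)
      refine ⟨N + n, fun i hi => ?_⟩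
      rcases Finset.mem_insert.1 hi with rfl | hi
      · refine ⟨τ ^ N * b, ?_⟩
        rw [map_mul, map_pow, ← hb, pow_add]
        ring
      · obtain ⟨b', hb'⟩ := hN i hi
        refine ⟨τ ^ n * b', ?_⟩
        rw [map_mul, map_pow, ← hb', pow_add]
        ring
  obtain ⟨N, hN⟩ := h1 P.support
  have h2 : C (ι τ ^ N) * P ∈ Polynomial.lifts ι := by
    rw [Polynomial.lifts_iff_coeff_lifts]
    intro i
    rw [coeff_C_mul]
    by_cases hi : i ∈ P.support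
    · obtain ⟨b, hb⟩ := hN i hi
      exact ⟨b, hb.symm⟩
    · refine ⟨0, ?_⟩
      rw [Polynomial.notMem_support_iff.1 hi, mul_zero, map_zero]
  obtain ⟨P₁, hP₁⟩ := (Polynomial.mem_lifts _).1 h2
  exact ⟨N, P₁, hP₁⟩

private theorem T_Kap_fac {B : Type} [CommRing B] [IsDomain B] [IsPrincipalIdealRing B]
    {K : Type} [Field K] (ι : B →+* K) (hι : Function.Injective ι) (τ : B) (hτ : ι τ ≠ 0)
    (hexh : ∀ x : K, ∃ (n : ℕ) (b : B), ι τ ^ n * x = ι b) {f' : B[X]} (hf' : f'.Monic)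
    (hn : 1 ≤ f'.natDegree)
    (hirr : ∀ I : Ideal B, I.IsMaximal → Irreducible (f'.map (Ideal.Quotient.mk I)))
    (l : AdjoinRoot (f'.map ι)) (hl : l ≠ 0) :
    ∃ (κ : K) (x : AdjoinRoot f'), κ ≠ 0 ∧ IsUnit x ∧ l = κ • bc ι f' x := by
  have hdK : (f'.map ι).natDegree = f'.natDegree := hf'.natDegree_map ι
  obtain ⟨P, hPd, rfl⟩ := exists_repr (hf'.map ι) (by rw [hdK]; exact hn) l
  have hP0 : P ≠ 0 := by
    rintro rfl
    exact hl (map_zero _)
  obtain ⟨N, P₁, hP₁⟩ := T_Kap_clear ι τ hexh P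
  have hτN : ι τ ^ N ≠ 0 := pow_ne_zero _ hτ
  have hP₁0 : P₁ ≠ 0 := by
    rintro rfl
    rw [Polynomial.map_zero] at hP₁
    exact mul_ne_zero (C_ne_zero.2 hτN) hP0 hP₁.symm
  have hP₁d : P₁.natDegree < f'.natDegree := by
    rw [← Polynomial.natDegree_map_eq_of_injective hι, hP₁, natDegree_C_mul hτN, ← hdK]
    exact hPd
  obtain ⟨d, P₀, hd0, hP₀, hI⟩ := T_Kap_prim P₁ hP₁0
  have hP₀d : P₀.natDegree < f'.natDegree := by
    rw [hP₀, natDegree_C_mul hd0] at hP₁d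
    exact hP₁d
  have hu : IsUnit (AdjoinRoot.mk f' P₀) := by
    refine T_Kap_unit hf' hirr _ fun I hImax => ?_
    rw [bc_mk]
    have : Nontrivial (B ⧸ I) := Ideal.Quotient.nontrivial_iff.2 hImax.ne_top
    refine AdjoinRoot.mk_ne_zero_of_natDegree_lt (hf'.map _) (hI I hImax) ?_
    rw [hf'.natDegree_map]
    exact lt_of_le_of_lt natDegree_map_le hP₀d
  have hιd : ι d ≠ 0 := by
    rw [← map_zero ι]
    exact hι.ne hd0
  refine ⟨(ι τ ^ N)⁻¹ * ι d, AdjoinRoot.mk f' P₀, mul_ne_zero (inv_ne_zero hτN) hιd, hu, ?_⟩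
  have h1 : P = C ((ι τ ^ N)⁻¹ * ι d) * P₀.map ι := by
    have h2 : P = C ((ι τ ^ N)⁻¹) * (C (ι τ ^ N) * P) := by
      rw [← mul_assoc, ← C_mul, inv_mul_cancel₀ hτN, C_1, one_mul]
    rw [h2, ← hP₁, hP₀, Polynomial.map_mul, Polynomial.map_C, C_mul, mul_assoc]
  rw [bc_mk, Algebra.smul_def, AdjoinRoot.algebraMap_eq]
  conv_lhs => rw [h1]
  rw [map_mul, AdjoinRoot.mk_C]

variable {k K : Type} [Field k] [Field K] [Algebra k K] {G : Geo k K} {g m : ℕ} {D : Data G g}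
  {f : G.A[X]}

private theorem T_Kap_data (hf : Fam₀ D m f) (hm : (G.fK f).Monic) :
    ∃ (f' : G.B[X]) (h : f'.map (algebraMap G.B K) = (G.fK f).scaleRoots (G.t⁻¹ ^ (2 * m))),
      f'.Monic ∧ f'.natDegree = 2 * g + 1 ∧
      (∀ x : AdjoinRoot f', dn (G.t⁻¹ ^ (2 * m)) h (bc (algebraMap G.B K) f' x) ∈ BL G m hm 0) ∧
      ∀ l : AdjoinRoot (G.fK f), l ≠ 0 → ∃ (κ : K) (x : AdjoinRoot f'), κ ≠ 0 ∧ IsUnit x ∧
        l = κ • dn (G.t⁻¹ ^ (2 * m)) h (bc (algebraMap G.B K) f' x) := by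
  obtain ⟨f', hf', hd, h, hred⟩ := exists_scaled hf
  have hδ : G.t⁻¹ ^ (2 * m) ≠ 0 := pow_ne_zero _ (inv_ne_zero G.t_ne)
  refine ⟨f', h, hf', hd, fun x => (mem_BL_iff hf hm f' hf' h _).2 ⟨x, rfl⟩, fun l hl => ?_⟩
  obtain ⟨l', rfl⟩ := (dn_bijective hδ h).2 l
  have hl' : l' ≠ 0 := by
    rintro rfl
    exact hl (map_zero _)
  have hexh : ∀ x : K, ∃ (n : ℕ) (b : G.B), algebraMap G.B K G.ti ^ n * x = algebraMap G.B K b := by
    intro x
    obtain ⟨n, hn⟩ := G.exh x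
    exact ⟨n, ⟨_, hn⟩, rfl⟩
  have hirr : ∀ I : Ideal G.B, I.IsMaximal → Irreducible (f'.map (Ideal.Quotient.mk I)) := by
    intro I hI
    rw [hred I hI]
    exact D.irr I hI
  obtain ⟨κ, x, hκ, hx, hlx⟩ := T_Kap_fac (algebraMap G.B K) Subtype.val_injective G.ti
    (inv_ne_zero G.t_ne) hexh hf' (by omega) hirr l' hl'
  refine ⟨κ, x, hκ, hx, ?_⟩
  rw [hlx, map_smul]

theorem exists_kap (hf : Fam₀ D m f) (hm : (G.fK f).Monic) (l : AdjoinRoot (G.fK f))
    (hl : l ≠ 0) : ∃ (κ : K) (e e' : AdjoinRoot (G.fK f)), κ ≠ 0 ∧ e ∈ BL G m hm 0 ∧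
      e' ∈ BL G m hm 0 ∧ e * e' = 1 ∧ l = κ • e := by
  obtain ⟨f', h, hf', hd, hBL, hfac⟩ := T_Kap_data hf hm
  obtain ⟨κ, x, hκ, ⟨u, rfl⟩, hlx⟩ := hfac l hl
  refine ⟨κ, _, _, hκ, hBL _, hBL (↑u⁻¹ : AdjoinRoot f'), ?_, hlx⟩
  rw [← map_mul, ← map_mul, Units.mul_inv, map_one, map_one]

theorem isUnit_of_ne_zero (hf : Fam₀ D m f) (l : AdjoinRoot (G.fK f)) (hl : l ≠ 0) :
    IsUnit l := by
  obtain ⟨κ, e, e', hκ, -, -, hee, rfl⟩ := exists_kap hf (hf.monic.map _) l hl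
  refine IsUnit.of_mul_eq_one (κ⁻¹ • e') ?_
  rw [smul_mul_smul_comm, hee, mul_inv_cancel₀ hκ, one_smul]

theorem irreducible_fK (hf : Fam₀ D m f) : Irreducible (G.fK f) := by
  have hm : (G.fK f).Monic := hf.monic.map _
  have hd : (G.fK f).natDegree = 2 * g + 1 := by
    rw [hf.monic.natDegree_map, hf.deg]
  rw [irreducible_iff]
  refine ⟨fun hu => ?_, fun a b hab => ?_⟩
  · have h1 := natDegree_eq_zero_of_isUnit hu
    omega
  · by_contra hcon
    rw [not_or] at hcon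
    have h0 : a ≠ 0 ∧ b ≠ 0 := by
      rw [← mul_ne_zero_iff, ← hab]
      exact hm.ne_zero
    have h1 : (G.fK f).natDegree = a.natDegree + b.natDegree := by
      rw [hab, natDegree_mul h0.1 h0.2]
    have ha : 1 ≤ a.natDegree := by
      by_contra hlt
      apply hcon.1
      rw [Polynomial.isUnit_iff_degree_eq_zero, Polynomial.degree_eq_natDegree h0.1]
      have : a.natDegree = 0 := by omega
      rw [this]
      rfl
    have hb : 1 ≤ b.natDegree := by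
      by_contra hlt
      apply hcon.2
      rw [Polynomial.isUnit_iff_degree_eq_zero, Polynomial.degree_eq_natDegree h0.2]
      have : b.natDegree = 0 := by omega
      rw [this]
      rfl
    have ha' : AdjoinRoot.mk (G.fK f) a ≠ 0 :=
      AdjoinRoot.mk_ne_zero_of_natDegree_lt hm h0.1 (by omega)
    have hb' : AdjoinRoot.mk (G.fK f) b ≠ 0 :=
      AdjoinRoot.mk_ne_zero_of_natDegree_lt hm h0.2 (by omega)
    have h2 : AdjoinRoot.mk (G.fK f) a * AdjoinRoot.mk (G.fK f) b = 0 := by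
      rw [← map_mul, ← hab, AdjoinRoot.mk_self]
    exact hb' ((isUnit_of_ne_zero hf _ ha').mul_right_eq_zero.1 h2)

theorem exists_norm (hf : Fam₀ D m f) (hm : (G.fK f).Monic) (c : AdjoinRoot (G.fK f))
    (hc : SqNorm c) : ∃ (a : K) (e e' : AdjoinRoot (G.fK f)), a ≠ 0 ∧ e ∈ BL G m hm 0 ∧
      e' ∈ BL G m hm 0 ∧ e * e' = 1 ∧ c = a ^ 2 • e ∧ SqNorm e := by
  obtain ⟨f', h, hf', hd, hBL, hfac⟩ := T_Kap_data hf hm
  have hδ : G.t⁻¹ ^ (2 * m) ≠ 0 := pow_ne_zero _ (inv_ne_zero G.t_ne)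
  have hdK : (G.fK f).natDegree = 2 * g + 1 := by
    rw [hf.monic.natDegree_map, hf.deg]
  obtain ⟨a, ha, hca⟩ := hc
  have hnt : Nontrivial (AdjoinRoot (G.fK f)) := AdjoinRoot.nontrivial _ (by
    intro h0
    have h1 := Polynomial.natDegree_eq_of_degree_eq_some (n := 0) h0
    omega)
  have hc0 : c ≠ 0 := by
    rintro rfl
    have := hm.free_adjoinRoot
    have := hm.finite_adjoinRoot
    rw [Algebra.norm_zero] at hca
    exact pow_ne_zero 2 ha hca.symm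
  obtain ⟨κ, x, hκ, ⟨u, rfl⟩, hcx⟩ := hfac c hc0
  set Φ : AdjoinRoot f' →+* AdjoinRoot (G.fK f) :=
    (dn (G.t⁻¹ ^ (2 * m)) h).toRingHom.comp (bc (algebraMap G.B K) f') with hΦ
  have hΦBL : ∀ y, Φ y ∈ BL G m hm 0 := hBL
  have hcx' : c = κ • Φ u := hcx
  have hΦn : ∀ y, Algebra.norm K (Φ y) = algebraMap G.B K (Algebra.norm G.B y) := by
    intro y
    rw [← norm_bc hf']
    exact norm_dn hm hδ h _
  have hΦc : ∀ b : G.B, Φ (AdjoinRoot.of f' b) = algebraMap K _ (b : K) := by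
    intro b
    have h1 : bc (algebraMap G.B K) f' (AdjoinRoot.of f' b) = algebraMap K _ (b : K) := by
      rw [← AdjoinRoot.mk_C, bc_mk, Polynomial.map_C, AdjoinRoot.mk_C]
      rfl
    show dn (G.t⁻¹ ^ (2 * m)) h (bc (algebraMap G.B K) f' (AdjoinRoot.of f' b)) = _
    rw [h1, AlgHom.commutes]
  have hnu : IsUnit (Algebra.norm G.B (u : AdjoinRoot f')) := u.isUnit.map _
  obtain ⟨v, hv⟩ := hnu
  set w : K := algebraMap G.B K (v : G.B) with hw
  set w' : K := algebraMap G.B K ((v⁻¹ : G.Bˣ) : G.B) with hw'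
  have hww : w * w' = 1 := by
    rw [hw, hw', ← map_mul, Units.mul_inv, map_one]
  have hw0 : w ≠ 0 := left_ne_zero_of_mul_eq_one hww
  have hΦu : Algebra.norm K (Φ u) = w := by
    rw [hΦn, ← hv]
  have hna : κ ^ (2 * g + 1) * w = a ^ 2 := by
    rw [← hca, hcx', Algebra.smul_def, map_mul, norm_const hm, hdK, hΦu]
  refine ⟨a / κ ^ g, Φ (AdjoinRoot.of f' ((v⁻¹ : G.Bˣ) : G.B) * u),
    Φ (AdjoinRoot.of f' (v : G.B) * (↑u⁻¹ : AdjoinRoot f')), div_ne_zero ha (pow_ne_zero _ hκ),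
    hΦBL _, hΦBL _, ?_, ?_, ?_⟩
  · rw [← map_mul]
    have h1 : AdjoinRoot.of f' ((v⁻¹ : G.Bˣ) : G.B) * u *
        (AdjoinRoot.of f' (v : G.B) * (↑u⁻¹ : AdjoinRoot f')) =
        AdjoinRoot.of f' (((v⁻¹ : G.Bˣ) : G.B) * (v : G.B)) * (u * (↑u⁻¹ : AdjoinRoot f')) := by
      rw [map_mul]
      ring
    rw [h1, Units.inv_mul, Units.mul_inv, map_one, mul_one, map_one]
  · rw [map_mul, hΦc, hcx', ← Algebra.smul_def, smul_smul]
    congr 1
    have h2 : w' = w⁻¹ := eq_inv_of_mul_eq_one_right hww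
    show κ = (a / κ ^ g) ^ 2 * w'
    rw [h2, div_pow, ← hna]
    field_simp
    ring
  · refine ⟨w' ^ g, pow_ne_zero _ (right_ne_zero_of_mul_eq_one hww), ?_⟩
    rw [map_mul, hΦc, map_mul, norm_const hm, hdK, hΦu]
    show w' ^ (2 * g + 1) * w = (w' ^ g) ^ 2
    rw [pow_succ, mul_assoc, mul_comm w' w, hww, mul_one, ← pow_mul, mul_comm g 2]

end Pool.Agent.GBC
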