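import Pool.Agent.Lib.GBC.T.Wt
import Pool.Agent.Lib.HYP.Def2

/-!
Module T.Scale of GBC. The polynomial `f' = t ^ (- 2 m n) f (t ^ (2 m) x)` over `B`.

PROOF. The coefficient of `x ^ j` of `(fK f).scaleRoots (t⁻¹ ^ (2 m))` is
`f.coeff j * (t⁻¹ ^ (2 m)) ^ (n - j)` (`coeff_scaleRoots`), `n = 2 g + 1`; by `Fam₀.lead` it is
`φ.coeff j + t ^ (- e) (element of M (e - 1))`, `e = 2 m (n - j)`, i.e. `φ.coeff j` plus an element of
`M (-1)`: the latter is `t⁻¹ β`, `β ∈ B`. So it is in `B` and congruent to `φ.coeff j` modulo every maximal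
ideal (`G.rad`). Put `f' = ∑_{j ≤ n} C (…) X ^ j` in `B[x]`. `mem_BL_iff`: `dn` maps `θ'` to
`t ^ (- 2 m) θ`, so an element `∑ y_i θ' ^ i` goes to `∑ y_i t ^ (- 2 m i) θ ^ i`, which is in `BL 0` iff
all `y_i ∈ B`; `AdjoinRoot.mk _ P` with `P` over `B` of degree `< n` (reduce modulo the monic `f'`).
-/

set_option autoImplicit false

open Polynomial

namespace Pool.Agent.GBC

open Pool.Agent.BSDP Pool.Agent.BSDFF Pool.Agent.HYP

variable {k K : Type} [Field k] [Field K] [Algebra k K] {G : Geo k K} {g m : ℕ} {D : Data G g}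
  {f : G.A[X]}

private theorem Scale_dn_mk {F : Type} [Field F] {f f' : F[X]} {D : F}
    (h : f' = f.scaleRoots D) (P : F[X]) :
    dn D h (AdjoinRoot.mk f' P) = AdjoinRoot.mk f (P.comp (C D * X)) := by
  unfold dn
  rw [AdjoinRoot.liftAlgHom_mk, Polynomial.comp, Polynomial.hom_eval₂, map_mul, AdjoinRoot.mk_X,
    AdjoinRoot.mk_C, Algebra.smul_def]
  rfl

private theorem Scale_monic (hf : Fam₀ D m f) : (G.fK f).Monic := hf.monic.map _

private theorem Scale_deg (hf : Fam₀ D m f) : (G.fK f).natDegree = 2 * g + 1 := by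
  have h1 : (G.fK f).natDegree = f.natDegree := hf.monic.natDegree_map _
  rw [h1, hf.deg]

private theorem Scale_spow (G : Geo k K) (e i : ℕ) :
    (G.t⁻¹ ^ e) ^ i = G.t ^ (-((e : ℤ) * (i : ℤ))) := by
  rw [← pow_mul, inv_pow, zpow_neg]
  congr 1
  rw [← zpow_natCast]
  push_cast
  rfl

private theorem Scale_coeff (hf : Fam₀ D m f) {j : ℕ} (hj : j ≤ 2 * g + 1) :
    (f.coeff j : K) * (G.t⁻¹ ^ (2 * m)) ^ (2 * g + 1 - j) - (D.φ.coeff j : K) ∈ G.M (-1) := by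
  have h1 := hf.lead j hj
  have h2 := (G.zpow_mul_mem_M (y := 2 * m * (2 * g + 1 - j : ℕ) - 1)
    (z := -(2 * m * (2 * g + 1 - j : ℕ)))).2 h1
  have e1 : (2 * m * (2 * g + 1 - j : ℕ) - 1 : ℤ) + -(2 * m * (2 * g + 1 - j : ℕ)) = -1 := by ring
  rw [e1] at h2
  have e3 : (G.t⁻¹ ^ (2 * m)) ^ (2 * g + 1 - j) =
      G.t ^ (-(2 * m * (2 * g + 1 - j : ℕ)) : ℤ) := by
    rw [Scale_spow]
    push_cast
    rfl
  have e4 : G.t ^ (-(2 * m * (2 * g + 1 - j : ℕ)) : ℤ) * G.t ^ (2 * m * (2 * g + 1 - j)) = 1 := by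
    rw [← e3, ← pow_mul, ← mul_pow, inv_mul_cancel₀ G.t_ne, one_pow]
  have e2 : G.t ^ (-(2 * m * (2 * g + 1 - j : ℕ)) : ℤ) *
      ((f.coeff j : K) - G.t ^ (2 * m * (2 * g + 1 - j)) * (D.φ.coeff j : K)) =
      (f.coeff j : K) * (G.t⁻¹ ^ (2 * m)) ^ (2 * g + 1 - j) - (D.φ.coeff j : K) := by
    rw [mul_sub, ← mul_assoc, e4, one_mul, e3, mul_comm]
  rw [e2] at h2
  exact h2

theorem exists_scaled (hf : Fam₀ D m f) : ∃ f' : G.B[X], f'.Monic ∧ f'.natDegree = 2 * g + 1 ∧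
    f'.map (algebraMap G.B K) = (G.fK f).scaleRoots (G.t⁻¹ ^ (2 * m)) ∧
    ∀ I : Ideal G.B, I.IsMaximal →
      f'.map (Ideal.Quotient.mk I) = D.φ.map (Ideal.Quotient.mk I) := by
  have hmon := Scale_monic hf
  have hdeg := Scale_deg hf
  have hco : ∀ j, ((G.fK f).scaleRoots (G.t⁻¹ ^ (2 * m))).coeff j =
      (f.coeff j : K) * (G.t⁻¹ ^ (2 * m)) ^ (2 * g + 1 - j) := by
    intro j
    rw [coeff_scaleRoots, hdeg, coeff_map]
    rfl
  have hlift : (G.fK f).scaleRoots (G.t⁻¹ ^ (2 * m)) ∈ lifts (algebraMap G.B K) := by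
    rw [lifts_iff_coeff_lifts]
    intro j
    rcases le_or_gt j (2 * g + 1) with hj | hj
    · have h1 := Scale_coeff hf hj
      have h2 := G.M_mono (show (-1 : ℤ) ≤ 0 by norm_num) h1
      rw [G.mem_M_zero] at h2
      have h3 := G.B.add_mem h2 (D.φ.coeff j).2
      rw [sub_add_cancel] at h3
      refine ⟨⟨_, h3⟩, ?_⟩
      rw [hco j]
      rfl
    · refine ⟨0, ?_⟩
      rw [map_zero, coeff_eq_zero_of_natDegree_lt]
      rw [natDegree_scaleRoots, hdeg]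
      exact hj
  have hmon2 : ((G.fK f).scaleRoots (G.t⁻¹ ^ (2 * m))).Monic :=
    (monic_scaleRoots_iff (G.t⁻¹ ^ (2 * m))).2 hmon
  obtain ⟨f', h1, h2, h3⟩ := lifts_and_natDegree_eq_and_monic hlift hmon2
  rw [natDegree_scaleRoots, hdeg] at h2
  refine ⟨f', h3, h2, h1, fun I hI => ?_⟩
  ext j
  rw [coeff_map, coeff_map, Ideal.Quotient.eq]
  rcases le_or_gt j (2 * g + 1) with hj | hj
  · have h4 : ((f'.coeff j - D.φ.coeff j : G.B) : K) ∈ G.M (-1) := by
      have h5 : ((f'.coeff j : G.B) : K) = ((G.fK f).scaleRoots (G.t⁻¹ ^ (2 * m))).coeff j := by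
        rw [← h1, coeff_map]
        rfl
      have h6 : ((f'.coeff j - D.φ.coeff j : G.B) : K) =
          ((f'.coeff j : G.B) : K) - ((D.φ.coeff j : G.B) : K) := rfl
      rw [h6, h5, hco j]
      exact Scale_coeff hf hj
    rw [G.mem_M, neg_neg, zpow_one] at h4
    have h7 : f'.coeff j - D.φ.coeff j =
        (⟨G.t⁻¹, G.inv_mem⟩ : G.B) * (⟨G.t * ((f'.coeff j - D.φ.coeff j : G.B) : K), h4⟩ : G.B) := by
      apply Subtype.ext
      show ((f'.coeff j - D.φ.coeff j : G.B) : K) =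
        G.t⁻¹ * (G.t * ((f'.coeff j - D.φ.coeff j : G.B) : K))
      rw [← mul_assoc, inv_mul_cancel₀ G.t_ne, one_mul]
    rw [h7]
    exact I.mul_mem_right _ (G.rad I hI)
  · rw [coeff_eq_zero_of_natDegree_lt (by rw [h2]; exact hj),
      coeff_eq_zero_of_natDegree_lt (by rw [D.deg]; exact hj), sub_zero]
    exact I.zero_mem

/-- `BL 0` is the image of `B[x] / (f')`. -/
theorem mem_BL_iff (hf : Fam₀ D m f) (hm : (G.fK f).Monic) (f' : G.B[X]) (hf' : f'.Monic)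
    (h : f'.map (algebraMap G.B K) = (G.fK f).scaleRoots (G.t⁻¹ ^ (2 * m)))
    (l : AdjoinRoot (G.fK f)) :
    l ∈ BL G m hm 0 ↔ ∃ x : AdjoinRoot f',
      l = dn (G.t⁻¹ ^ (2 * m)) h (bc (algebraMap G.B K) f' x) := by
  have hdeg := Scale_deg hf
  have hdf' : f'.natDegree = 2 * g + 1 := by
    rw [← hf'.natDegree_map (algebraMap G.B K), h, natDegree_scaleRoots, hdeg]
  constructor
  · intro hl
    have hl' : ∀ i : ℕ, (AdjoinRoot.modByMonicHom hm l).coeff i ∈ G.M (0 - 2 * m * i) := hl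
    obtain ⟨R, rfl⟩ := AdjoinRoot.mk_surjective l
    rw [AdjoinRoot.modByMonicHom_mk] at hl'
    have hP : (R %ₘ G.fK f).natDegree < 2 * g + 1 := by
      rw [← hdeg]
      refine natDegree_modByMonic_lt _ hm ?_
      intro h0
      rw [h0, natDegree_one] at hdeg
      omega
    have hc : ∀ i : ℕ, G.t ^ ((2 * m * i : ℕ) : ℤ) * (R %ₘ G.fK f).coeff i ∈ G.B := by
      intro i
      have h1 := (G.mem_M _ _).1 (hl' i)
      have e1 : -(0 - 2 * (m : ℤ) * (i : ℤ)) = ((2 * m * i : ℕ) : ℤ) := by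
        push_cast
        ring
      rwa [e1] at h1
    let c : ℕ → G.B := fun i => ⟨_, hc i⟩
    let Q : G.B[X] := ∑ i ∈ Finset.range (2 * g + 1), C (c i) * X ^ i
    have hQ : ∀ i, Q.coeff i = if i < 2 * g + 1 then c i else 0 := by
      intro i
      simp only [Q, finsetSum_coeff, coeff_C_mul_X_pow]
      rw [Finset.sum_ite_eq]
      simp only [Finset.mem_range]
    have hcomp : (Q.map (algebraMap G.B K)).comp (C (G.t⁻¹ ^ (2 * m)) * X) = R %ₘ G.fK f := by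
      ext i
      rw [comp_C_mul_X_coeff, coeff_map, hQ]
      split_ifs with hi
      · show (G.t ^ ((2 * m * i : ℕ) : ℤ) * (R %ₘ G.fK f).coeff i) * (G.t⁻¹ ^ (2 * m)) ^ i = _
        rw [zpow_natCast, ← pow_mul, mul_comm, ← mul_assoc, ← mul_pow, inv_mul_cancel₀ G.t_ne,
          one_pow, one_mul]
      · rw [map_zero, zero_mul, coeff_eq_zero_of_natDegree_lt]
        omega
    refine ⟨AdjoinRoot.mk f' Q, ?_⟩
    rw [bc_mk, Scale_dn_mk, hcomp]
    rw [AdjoinRoot.mk_eq_mk]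
    have h2 := modByMonic_add_div R (G.fK f)
    exact ⟨R /ₘ G.fK f, by rw [← eq_sub_iff_add_eq'.2 h2]⟩
  · rintro ⟨x, rfl⟩
    obtain ⟨Q, rfl⟩ := AdjoinRoot.mk_surjective x
    have h1 : AdjoinRoot.mk f' Q = AdjoinRoot.mk f' (Q %ₘ f') := by
      rw [AdjoinRoot.mk_eq_mk]
      have h2 := modByMonic_add_div Q f'
      exact ⟨Q /ₘ f', by rw [← eq_sub_iff_add_eq'.2 h2]⟩
    have hQ : (Q %ₘ f').natDegree < 2 * g + 1 := by
      rw [← hdf']
      refine natDegree_modByMonic_lt _ hf' ?_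
      intro h0
      rw [h0, natDegree_one] at hdf'
      omega
    rw [h1, bc_mk, Scale_dn_mk]
    intro i
    rw [AdjoinRoot.modByMonicHom_mk]
    have h3 : (((Q %ₘ f').map (algebraMap G.B K)).comp (C (G.t⁻¹ ^ (2 * m)) * X)).natDegree <
        (G.fK f).natDegree := by
      rw [hdeg]
      refine lt_of_le_of_lt (natDegree_le_iff_coeff_eq_zero.2 fun j hj => ?_) hQ
      rw [comp_C_mul_X_coeff, coeff_map, coeff_eq_zero_of_natDegree_lt hj, map_zero, zero_mul]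
    rw [(modByMonic_eq_self_iff hm).2 (degree_lt_degree h3), comp_C_mul_X_coeff, coeff_map,
      Scale_spow, mul_comm (algebraMap G.B K ((Q %ₘ f').coeff i))]
    have e1 : (0 : ℤ) - 2 * m * i = 0 + -(((2 * m : ℕ) : ℤ) * (i : ℤ)) := by
      push_cast
      ring
    rw [e1, G.zpow_mul_mem_M, G.mem_M_zero]
    exact ((Q %ₘ f').coeff i).2

end Pool.Agent.GBC
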